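import Pool.Agent.N874.PP.Lat

/-!
# Coordinates of integers of the cubic field and the primes over `Q`

Project PP.
-/

set_option autoImplicit false
set_option linter.all false

open Polynomial IsDedekindDomain
open scoped Classical

namespace Pool.Agent.N134.PP

open Pool.Agent.N874.PP

section coord

variable {k K L : Type} [Field k] [Field K] [Algebra k[X] K] [IsFractionRing k[X] K]
  [Field L] [Algebra K L] [Algebra k[X] L] [IsScalarTower k[X] K L] {a b : k[X]} {θ : L}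

theorem co_crd (h : IsCub K a b θ) {v : Fin 3 → k[X]} {x : L} (hx : Crd θ v x) (i : Fin 3) :
    h.co i x = algebraMap k[X] K (v i) := by
  have h1 : x = ∑ j, (algebraMap k[X] K (v j)) • h.basis j := by
    rw [Fin.sum_univ_three, h.basis_apply, h.basis_apply, h.basis_apply, hx]
    simp only [vec, Algebra.smul_def, ← IsScalarTower.algebraMap_apply k[X] K L]
    simp
  rw [h1, IsCub.co, Module.Basis.coord_apply, Module.Basis.repr_sum_self]

theorem crd_inj (h : IsCub K a b θ) {v w : Fin 3 → k[X]} {x : L} (hv : Crd θ v x)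
    (hw : Crd θ w x) : v = w := by
  funext i
  apply IsFractionRing.injective k[X] K
  rw [← co_crd h hv, co_crd h hw]

theorem inj_L (K : Type) [Field K] [Algebra k[X] K] [IsFractionRing k[X] K] [Algebra K L]
    [IsScalarTower k[X] K L] : Function.Injective (algebraMap k[X] L) := by
  rw [IsScalarTower.algebraMap_eq k[X] K L]
  exact (algebraMap K L).injective.comp (IsFractionRing.injective k[X] K)

theorem crd_add {v w : Fin 3 → k[X]} {x y : L} (hv : Crd θ v x) (hw : Crd θ w y) :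
    Crd θ (v + w) (x + y) := by
  unfold Crd at *
  rw [hv, hw]
  simp only [Pi.add_apply, map_add]
  ring

theorem crd_smul {v : Fin 3 → k[X]} {x : L} (c : k[X]) (hv : Crd θ v x) :
    Crd θ (fun i => c * v i) (algebraMap k[X] L c * x) := by
  unfold Crd at *
  rw [hv]
  simp only [map_mul]
  ring

theorem crd_C (θ : L) (c : k[X]) : Crd θ ![c, 0, 0] (algebraMap k[X] L c) := by
  simp [Crd]

/-- multiplication by `θ` -/
theorem crd_theta (h : IsCub K a b θ) {v : Fin 3 → k[X]} {x : L} (hv : Crd θ v x) :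
    Crd θ ![-b * v 2, v 0 - a * v 2, v 1] (θ * x) := by
  have h3 := h.root
  unfold Crd at *
  rw [hv]
  simp only [Matrix.cons_val_zero, Matrix.cons_val_one, Matrix.cons_val, map_mul, map_neg, map_sub]
  linear_combination (algebraMap k[X] L (v 2)) * h3

theorem crd_mul (h : IsCub K a b θ) {v w : Fin 3 → k[X]} {x y : L} (hv : Crd θ v x)
    (hw : Crd θ w y) : Crd θ ![v 0 * w 0 - b * (v 1 * w 2 + v 2 * w 1),
      v 0 * w 1 + v 1 * w 0 - a * (v 1 * w 2 + v 2 * w 1) - b * (v 2 * w 2),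
      v 0 * w 2 + v 1 * w 1 + v 2 * w 0 - a * (v 2 * w 2)] (x * y) := by
  have h3 := h.root
  unfold Crd at *
  rw [hv, hw]
  simp only [Matrix.cons_val_zero, Matrix.cons_val_one, Matrix.cons_val, map_mul, map_add, map_sub]
  linear_combination (algebraMap k[X] L (v 1) * algebraMap k[X] L (w 2) +
    algebraMap k[X] L (v 2) * algebraMap k[X] L (w 1) +
    algebraMap k[X] L (v 2) * algebraMap k[X] L (w 2) * θ) * h3

end coord

section primes

variable {k L O : Type} [Field k] [Field L] [CommRing O] [IsDedekindDomain O] [Algebra O L]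
  [IsFractionRing O L] [Algebra k[X] O]

/-- the polynomials in a prime over `Q` -/
theorem poly_mem {Q : k[X]} (hQ : Irreducible Q) {𝔓 : HeightOneSpectrum O} (hv : Ov Q 𝔓)
    (p : k[X]) : algebraMap k[X] O p ∈ 𝔓.asIdeal ↔ Q ∣ p := by
  constructor
  · intro hp
    by_contra hn
    obtain ⟨u, w, huw⟩ := hQ.coprime_iff_not_dvd.2 hn
    apply 𝔓.isPrime.ne_top
    rw [Ideal.eq_top_iff_one]
    have h1 : algebraMap k[X] O u * algebraMap k[X] O Q + algebraMap k[X] O w * algebraMap k[X] O p =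
        1 := by
      rw [← map_mul, ← map_mul, ← map_add, huw, map_one]
    rw [← h1]
    exact 𝔓.asIdeal.add_mem (𝔓.asIdeal.mul_mem_left _ hv) (𝔓.asIdeal.mul_mem_left _ hp)
  · rintro ⟨c, rfl⟩
    rw [map_mul]
    exact 𝔓.asIdeal.mul_mem_right _ hv

theorem val_lt_mem (𝔓 : HeightOneSpectrum O) (z : O) :
    𝔓.valuation L (algebraMap O L z) < 1 ↔ z ∈ 𝔓.asIdeal :=
  𝔓.valuation_lt_one_iff_mem z

end primes

theorem mapO {k L O : Type} [Field k] [Field L] [CommRing O] [Algebra O L] [Algebra k[X] O]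
    [Algebra k[X] L] [IsScalarTower k[X] O L] (p : k[X]) :
    algebraMap O L (algebraMap k[X] O p) = algebraMap k[X] L p :=
  (IsScalarTower.algebraMap_apply k[X] O L p).symm

section main

variable {k K L O : Type} [Field k] [Field K] [Algebra k[X] K] [IsFractionRing k[X] K]
  [Field L] [Algebra K L] [Algebra k[X] L] [IsScalarTower k[X] K L] [CommRing O]
  [IsDedekindDomain O] [Algebra O L] [IsFractionRing O L] [Algebra k[X] O]
  [IsScalarTower k[X] O L] {a b : k[X]} {θ : L}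


theorem injO (K L O : Type) [Field K] [Algebra k[X] K] [IsFractionRing k[X] K]
    [Field L] [Algebra K L] [Algebra k[X] L] [IsScalarTower k[X] K L] [CommRing O] [Algebra O L]
    [Algebra k[X] O] [IsScalarTower k[X] O L] : Function.Injective (algebraMap k[X] O) := by
  intro p q hpq
  apply inj_L (L := L) K
  rw [← mapO (O := O), hpq, mapO]

/-- a maximal ideal which contains `Q` as a prime of the Dedekind domain -/
theorem exists_hos (K L : Type) [Field K] [Algebra k[X] K] [IsFractionRing k[X] K]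
    [Field L] [Algebra K L] [Algebra k[X] L] [IsScalarTower k[X] K L] [Algebra O L]
    [IsScalarTower k[X] O L] {Q : k[X]} (hQ : Irreducible Q) (I : Ideal O)
    (hI : I ≠ ⊤) (hIQ : algebraMap k[X] O Q ∈ I) :
    ∃ 𝔓 : HeightOneSpectrum O, Ov Q 𝔓 ∧ I ≤ 𝔓.asIdeal := by
  obtain ⟨M, hM, hIM⟩ := Ideal.exists_le_maximal I hI
  refine ⟨⟨M, hM.isPrime, ?_⟩, hIM hIQ, hIM⟩
  rintro rfl
  have h1 := hIM hIQ
  rw [Ideal.mem_bot] at h1
  apply hQ.ne_zero
  apply injO K L O
  rw [h1, map_zero]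

end main

section main

variable {k K L O : Type} [Field k] [Field K] [Algebra k[X] K] [IsFractionRing k[X] K]
  [Field L] [Algebra K L] [Algebra k[X] L] [IsScalarTower k[X] K L] [CommRing O]
  [IsDedekindDomain O] [Algebra O L] [IsFractionRing O L] [Algebra k[X] O]
  [IsScalarTower k[X] O L] [IsIntegralClosure O k[X] L] {a b : k[X]} {θ : L}

theorem int_iff (O : Type) [CommRing O] [Algebra O L] [Algebra k[X] O]
    [IsScalarTower k[X] O L] [IsIntegralClosure O k[X] L] (x : L) :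
    IsIntegral k[X] x ↔ ∃ z : O, algebraMap O L z = x :=
  IsIntegralClosure.isIntegral_iff (A := O)

variable (h6 : (6 : k) ≠ 0) (hI : S_INT) (h : IsCub K a b θ) (hsq : Squarefree (dsc a b))

include h6 hI h hsq in
theorem exO (z : O) : ∃ v : Fin 3 → k[X], Crd θ v (algebraMap O L z) :=
  (hI k K L a b θ h6 h hsq _).1 ((int_iff (k := k) O _).2 ⟨z, rfl⟩)

include h6 hI h hsq in
theorem ofCrd (O : Type) [CommRing O] [Algebra O L] [Algebra k[X] O]
    [IsScalarTower k[X] O L] [IsIntegralClosure O k[X] L] {v : Fin 3 → k[X]} {x : L}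
    (hv : Crd θ v x) : ∃ z : O, algebraMap O L z = x :=
  (int_iff O x).1 ((hI k K L a b θ h6 h hsq _).2 ⟨v, hv⟩)

theorem theta_ex (O : Type) [CommRing O] [Algebra O L] [Algebra k[X] O] [IsScalarTower k[X] O L]
    [IsIntegralClosure O k[X] L] (h : IsCub K a b θ) : ∃ t : O, algebraMap O L t = θ := by
  apply (int_iff (k := k) O θ).1
  refine ⟨X ^ 3 + C a * X + C b, ?_, ?_⟩
  · monicity!
  · have h3 := h.root
    simp only [eval₂_add, eval₂_mul, eval₂_pow, eval₂_X, eval₂_C]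
    exact h3

include h6 hI h hsq in
/-- the prime over `Q` which contains `θ` -/
theorem exists_P1 {Q : k[X]} (hQ : Irreducible Q) (hQb : Q ∣ b) (t : O)
    (ht : algebraMap O L t = θ) : ∃ 𝔓 : HeightOneSpectrum O, Ov Q 𝔓 ∧ t ∈ 𝔓.asIdeal := by
  obtain ⟨𝔓, h1, h2⟩ := exists_hos (O := O) K L hQ (Ideal.span {algebraMap k[X] O Q, t}) (by
    rw [Ne, Ideal.eq_top_iff_one, Ideal.mem_span_pair]
    rintro ⟨y, z, hyz⟩
    obtain ⟨v, hv⟩ := exO h6 hI h hsq y
    obtain ⟨w, hw⟩ := exO h6 hI h hsq z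
    have e1 := crd_add (crd_smul Q hv) (crd_theta h hw)
    have e2 : algebraMap k[X] L Q * algebraMap O L y + θ * algebraMap O L z =
        algebraMap k[X] L 1 := by
      have := congrArg (algebraMap O L) hyz
      rw [map_add, map_mul, map_mul, mapO, ht, map_one] at this
      rw [map_one, ← this]
      ring
    rw [e2] at e1
    have e3 := congrFun (crd_inj h e1 (crd_C θ 1)) 0
    simp only [Pi.add_apply, Matrix.cons_val_zero] at e3
    apply hQ.not_isUnit
    rw [isUnit_iff_dvd_one, ← e3]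
    exact dvd_add (dvd_mul_right _ _) ((hQb.neg_right).mul_right _))
    (Ideal.subset_span (by simp))
  exact ⟨𝔓, h1, h2 (Ideal.subset_span (by simp))⟩

include h6 hI h hsq in
/-- the prime over `Q` which contains `θ ^ 2 + a` -/
theorem exists_P2 {Q : k[X]} (hQ : Irreducible Q) (hQb : Q ∣ b) (t : O)
    (ht : algebraMap O L t = θ) :
    ∃ 𝔓 : HeightOneSpectrum O, Ov Q 𝔓 ∧ t ^ 2 + algebraMap k[X] O a ∈ 𝔓.asIdeal := by
  obtain ⟨𝔓, h1, h2⟩ := exists_hos (O := O) K L hQ
    (Ideal.span {algebraMap k[X] O Q, t ^ 2 + algebraMap k[X] O a}) (by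
    rw [Ne, Ideal.eq_top_iff_one, Ideal.mem_span_pair]
    rintro ⟨y, z, hyz⟩
    obtain ⟨v, hv⟩ := exO h6 hI h hsq y
    obtain ⟨w, hw⟩ := exO h6 hI h hsq z
    have e1 := crd_add (crd_smul Q hv) (crd_add (crd_theta h (crd_theta h hw)) (crd_smul a hw))
    have e2 : algebraMap k[X] L Q * algebraMap O L y + (θ * (θ * algebraMap O L z) +
        algebraMap k[X] L a * algebraMap O L z) = algebraMap k[X] L 1 := by
      have := congrArg (algebraMap O L) hyz
      rw [map_add, map_mul, map_mul, map_add, map_pow, mapO, mapO, ht, map_one] at this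
      rw [map_one, ← this]
      ring
    rw [e2] at e1
    have e3 := crd_inj h e1 (crd_C θ 1)
    have e4 := congrFun e3 0
    have e5 := congrFun e3 2
    simp only [Pi.add_apply, Matrix.cons_val_zero, Matrix.cons_val_one, Matrix.cons_val] at e4 e5
    obtain ⟨c, hc⟩ := hQb
    apply hQ.not_isUnit
    rw [isUnit_iff_dvd_one]
    refine ⟨v 0 - c * w 1 - a * v 2, ?_⟩
    linear_combination -e4 + a * e5 - w 1 * hc)
    (Ideal.subset_span (by simp))
  exact ⟨𝔓, h1, h2 (Ideal.subset_span (by simp))⟩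

/-- the elements of the prime which contains `θ` -/
theorem mem_P1 {Q : k[X]} (hQ : Irreducible Q) {t : O} (ht : algebraMap O L t = θ)
    {𝔓 : HeightOneSpectrum O} (hv : Ov Q 𝔓) (ht1 : t ∈ 𝔓.asIdeal) {z : O} {v : Fin 3 → k[X]}
    (hz : Crd θ v (algebraMap O L z)) : z ∈ 𝔓.asIdeal ↔ Q ∣ v 0 := by
  have e : z = algebraMap k[X] O (v 0) + (algebraMap k[X] O (v 1) + algebraMap k[X] O (v 2) * t) *
      t := by
    apply IsFractionRing.injective O L
    rw [hz]
    simp only [map_add, map_mul, mapO, ht]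
    ring
  rw [← poly_mem hQ hv (v 0), e]
  have h2 := 𝔓.asIdeal.mul_mem_left (algebraMap k[X] O (v 1) + algebraMap k[X] O (v 2) * t) ht1
  constructor
  · intro h1
    have := 𝔓.asIdeal.sub_mem h1 h2
    rwa [add_sub_cancel_right] at this
  · intro h1
    exact 𝔓.asIdeal.add_mem h1 h2

/-- the elements of the prime which contains `θ ^ 2 + a` -/
theorem mem_P2 {Q : k[X]} (hQ : Irreducible Q) (hns : ∀ z : k[X], ¬ Q ∣ z ^ 2 + a) {t : O}
    (ht : algebraMap O L t = θ) {𝔓 : HeightOneSpectrum O} (hv : Ov Q 𝔓)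
    (ht2 : t ^ 2 + algebraMap k[X] O a ∈ 𝔓.asIdeal) {z : O} {v : Fin 3 → k[X]}
    (hz : Crd θ v (algebraMap O L z)) (hz2 : z ∈ 𝔓.asIdeal) : Q ∣ v 1 ∧ Q ∣ v 0 - a * v 2 := by
  have e : algebraMap k[X] O (v 0 - a * v 2) + algebraMap k[X] O (v 1) * t =
      z - algebraMap k[X] O (v 2) * (t ^ 2 + algebraMap k[X] O a) := by
    apply IsFractionRing.injective O L
    have hz' : algebraMap O L z = _ := hz
    simp only [map_add, map_mul, map_sub, map_pow, mapO, ht, hz']
    ring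
  have h1 : algebraMap k[X] O (v 0 - a * v 2) + algebraMap k[X] O (v 1) * t ∈ 𝔓.asIdeal := by
    rw [e]
    exact 𝔓.asIdeal.sub_mem hz2 (𝔓.asIdeal.mul_mem_left _ ht2)
  have h2 : algebraMap k[X] O ((v 0 - a * v 2) ^ 2 + a * (v 1) ^ 2) ∈ 𝔓.asIdeal := by
    have h3 := 𝔓.asIdeal.mul_mem_left (algebraMap k[X] O (v 0 - a * v 2) -
      algebraMap k[X] O (v 1) * t) h1
    have h4 := 𝔓.asIdeal.add_mem h3 (𝔓.asIdeal.mul_mem_left (algebraMap k[X] O (v 1) ^ 2) ht2)
    convert h4 using 1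
    simp only [map_add, map_mul, map_sub, map_pow]
    ring
  rw [poly_mem hQ hv] at h2
  have h3 : Q ∣ v 1 := by
    by_contra hn
    obtain ⟨u, w, huw⟩ := hQ.coprime_iff_not_dvd.2 hn
    apply hns ((v 0 - a * v 2) * w)
    have h5 : Q ∣ w ^ 2 * ((v 0 - a * v 2) ^ 2 + a * (v 1) ^ 2) := h2.mul_left _
    have h6 : w ^ 2 * ((v 0 - a * v 2) ^ 2 + a * (v 1) ^ 2) =
        ((v 0 - a * v 2) * w) ^ 2 + a + Q * (a * u * (u * Q - 2)) := by
      have h7 : w * v 1 = 1 - u * Q := by rw [← huw]; ring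
      linear_combination a * (w * v 1 + 1 - u * Q) * h7
    rw [h6] at h5
    exact (dvd_add_left (dvd_mul_right _ _)).1 h5
  refine ⟨h3, ?_⟩
  have h5 : Q ∣ (v 0 - a * v 2) ^ 2 := by
    have h6 : Q ∣ a * (v 1) ^ 2 := (dvd_pow h3 two_ne_zero).mul_left _
    exact (dvd_add_left h6).1 h2
  exact hQ.prime.dvd_of_dvd_pow h5

/-- the elements of both primes are divisible by `Q` -/
theorem mem_both {Q : k[X]} (hQ : Irreducible Q) (hns : ∀ z : k[X], ¬ Q ∣ z ^ 2 + a) {t : O}
    (ht : algebraMap O L t = θ) {𝔓 𝔮 : HeightOneSpectrum O} (hv : Ov Q 𝔓) (hv2 : Ov Q 𝔮)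
    (ht1 : t ∈ 𝔓.asIdeal) (ht2 : t ^ 2 + algebraMap k[X] O a ∈ 𝔮.asIdeal) {z : O}
    {v : Fin 3 → k[X]} (hz : Crd θ v (algebraMap O L z)) (hz1 : z ∈ 𝔓.asIdeal)
    (hz2 : z ∈ 𝔮.asIdeal) : Q ∣ v 0 ∧ Q ∣ v 1 ∧ Q ∣ v 2 := by
  have h1 := (mem_P1 hQ ht hv ht1 hz).1 hz1
  obtain ⟨h2, h3⟩ := mem_P2 hQ hns ht hv2 ht2 hz hz2
  refine ⟨h1, h2, ?_⟩
  have h4 : Q ∣ a * v 2 := by
    have := dvd_sub h1 h3
    rwa [sub_sub_cancel] at this
  rcases hQ.prime.dvd_or_dvd h4 with h5 | h5
  · exfalso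
    apply hns 0
    simpa using h5
  · exact h5

theorem not_dvd_a {Q : k[X]} (hns : ∀ z : k[X], ¬ Q ∣ z ^ 2 + a) : ¬ Q ∣ a := by
  intro h1
  apply hns 0
  simpa using h1

/-- the two primes are different -/
theorem theta_not_mem {Q : k[X]} (hQ : Irreducible Q) (hns : ∀ z : k[X], ¬ Q ∣ z ^ 2 + a) {t : O}
    {𝔮 : HeightOneSpectrum O} (hv2 : Ov Q 𝔮) (ht2 : t ^ 2 + algebraMap k[X] O a ∈ 𝔮.asIdeal) :
    t ∉ 𝔮.asIdeal := by
  intro h1
  have h2 : algebraMap k[X] O a ∈ 𝔮.asIdeal := by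
    have := 𝔮.asIdeal.sub_mem ht2 (𝔮.asIdeal.mul_mem_left t h1)
    have e : t ^ 2 + algebraMap k[X] O a - t * t = algebraMap k[X] O a := by ring
    rwa [e] at this
  exact not_dvd_a hns ((poly_mem hQ hv2 a).1 h2)

end main

end Pool.Agent.N134.PP
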