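import Pool.Agent.N134.PP.Base

/-!
# Local squares give common isotropic vectors modulo `Q`

Project PP, part TTV.
-/

set_option autoImplicit false
set_option linter.all false

open Polynomial IsDedekindDomain
open scoped Classical

namespace Pool.Agent.N134.PP

open Pool.Agent.N874.PP

section main

variable {k K L O : Type} [Field k] [Field K] [Algebra k[X] K] [IsFractionRing k[X] K]
  [Field L] [Algebra K L] [Algebra k[X] L] [IsScalarTower k[X] K L] [CommRing O]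
  [IsDedekindDomain O] [Algebra O L] [IsFractionRing O L] [Algebra k[X] O]
  [IsScalarTower k[X] O L] [IsIntegralClosure O k[X] L] {a b : k[X]} {θ : L}

/-- the lattice -/
def InI (k : Type) {L : Type} [Field k] [Field L] [Algebra k[X] L] (e : Fin 3 → L) (α y : L) :
    Prop := ∀ i, IsIntegral k[X] (e i * y / α)

theorem InI.add {e : Fin 3 → L} {α x y : L} (hx : InI k e α x) (hy : InI k e α y) :
    InI k e α (x + y) := fun i => by
  have := (hx i).add (hy i)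
  rwa [← add_div, ← mul_add] at this

theorem InI.sub {e : Fin 3 → L} {α x y : L} (hx : InI k e α x) (hy : InI k e α y) :
    InI k e α (x - y) := fun i => by
  have := (hx i).sub (hy i)
  rwa [← sub_div, ← mul_sub] at this

theorem InI.mul {e : Fin 3 → L} {α x c : L} (hc : IsIntegral k[X] c) (hx : InI k e α x) :
    InI k e α (c * x) := fun i => by
  have := hc.mul (hx i)
  have e1 : c * (e i * x / α) = e i * (c * x) / α := by ring
  rwa [e1] at this

theorem int_poly (c : k[X]) : IsIntegral k[X] (algebraMap k[X] L c) := isIntegral_algebraMap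

theorem InI.of_span {e : Fin 3 → L} {α : L} (hSD : SD k K e α) (c : Fin 3 → k[X]) :
    InI k e α (∑ i, algebraMap k[X] L (c i) * e i) := fun i => by
  have e1 : e i * (∑ j, algebraMap k[X] L (c j) * e j) / α =
      ∑ j, algebraMap k[X] L (c j) * (e i * e j / α) := by
    rw [Finset.mul_sum, Finset.sum_div]
    exact Finset.sum_congr rfl fun j _ => by ring
  rw [e1]
  exact IsIntegral.sum _ fun j _ => (int_poly (c j)).mul (hSD.int i j)

theorem InI.prod {e : Fin 3 → L} {α x y : L} (hSD : SD k K e α) (hx : InI k e α x)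
    (hy : InI k e α y) : IsIntegral k[X] (x * y / α) := by
  obtain ⟨c, hc⟩ := hSD.dual x hx
  have e1 : x * y / α = ∑ j, algebraMap k[X] L (c j) * (e j * y / α) := by
    rw [hc, Finset.sum_mul, Finset.sum_div]
    exact Finset.sum_congr rfl fun j _ => by ring
  rw [e1]
  exact IsIntegral.sum _ fun j _ => (int_poly (c j)).mul (hy j)

/-- an element of the lattice which is good at `𝔓` -/
theorem stepA {e : Fin 3 → L} {α : L} (hα : α ≠ 0) (hSD : SD k K e α)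
    {𝔓 : HeightOneSpectrum O} (hs : Sq1 𝔓 α) :
    ∃ (y : L) (t g : O), InI k e α y ∧ t ∉ 𝔓.asIdeal ∧ algebraMap O L g = y * y / α ∧
      g - t ^ 2 ∈ 𝔓.asIdeal := by
  obtain ⟨s, hs⟩ := hs
  have hvα : 𝔓.valuation L α ≠ 0 := (Valuation.ne_zero_iff _).2 hα
  have hvs : 𝔓.valuation L (s ^ 2) = 𝔓.valuation L α := by
    have h1 : s ^ 2 = α - (α - s ^ 2) := by ring
    rw [h1]
    exact Valuation.map_sub_eq_of_lt_left _ hs
  have hvs' : 𝔓.valuation L (s ^ 2 / α) = 1 := by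
    rw [map_div₀, hvs, div_self hvα]
  have hint : ∀ i, 𝔓.valuation L (e i * s / α) ≤ 1 := by
    intro i
    have h1 : 𝔓.valuation L (e i * e i / α) ≤ 1 := by
      obtain ⟨z, hz⟩ := (int_iff (k := k) O _).1 (hSD.int i i)
      rw [← hz]
      exact 𝔓.valuation_le_one z
    have h2 : 𝔓.valuation L (e i * s / α) ^ 2 ≤ 1 := by
      rw [← map_pow]
      have h3 : (e i * s / α) ^ 2 = (e i * e i / α) * (s ^ 2 / α) := by
        field_simp
      rw [h3, map_mul, hvs', mul_one]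
      exact h1
    exact (pow_le_one_iff two_ne_zero).1 h2
  choose n d hnd using fun i => 𝔓.exists_primeCompl_mul_eq_of_integer (e i * s / α) (hint i)
  have hd : ∀ i, ((d i : O) : O) ∉ 𝔓.asIdeal := fun i => (d i).2
  obtain ⟨t, ht⟩ : ∃ t : O, t = ∏ i, (d i : O) := ⟨_, rfl⟩
  have htn : t ∉ 𝔓.asIdeal := by
    rw [ht]
    intro hmem
    obtain ⟨i, -, hi⟩ := (Ideal.IsPrime.prod_mem_iff (hp := 𝔓.isPrime)).1 hmem
    exact hd i hi
  have hy : InI k e α (s * algebraMap O L t) := by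
    intro i
    have h1 : e i * (s * algebraMap O L t) / α =
        algebraMap O L (n i * ∏ j ∈ Finset.univ.erase i, (d j : O)) := by
      rw [ht, ← Finset.mul_prod_erase _ _ (Finset.mem_univ i), map_mul, map_mul, ← hnd i]
      ring
    rw [h1]
    exact (int_iff (k := k) O _).2 ⟨_, rfl⟩
  obtain ⟨g, hg⟩ := (int_iff (k := k) O _).1 (hy.prod hSD hy)
  refine ⟨_, t, g, hy, htn, hg, ?_⟩
  rw [← val_lt_mem (L := L)]
  have h1 : algebraMap O L (g - t ^ 2) = - ((algebraMap O L t) ^ 2 * ((α - s ^ 2) / α)) := by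
    rw [map_sub, map_pow, hg]
    field_simp
    ring
  rw [h1, Valuation.map_neg, map_mul, map_pow, map_div₀]
  have h2 : 𝔓.valuation L (α - s ^ 2) / 𝔓.valuation L α < 1 :=
    (div_lt_one₀ (zero_lt_iff.2 hvα)).2 hs
  calc _ ≤ 1 * (𝔓.valuation L (α - s ^ 2) / 𝔓.valuation L α) :=
        mul_le_mul_left (pow_le_one₀ zero_le (𝔓.valuation_le_one t)) _
    _ < 1 := by rw [one_mul]; exact h2

/-- an element of the lattice which is good at `𝔓` and small at `𝔓'` -/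
theorem stepB {e : Fin 3 → L} {α : L} (hα : α ≠ 0) (hSD : SD k K e α)
    {𝔓 𝔓' : HeightOneSpectrum O} (hs : Sq1 𝔓 α) (hne : ∃ p ∈ 𝔓'.asIdeal, p ∉ 𝔓.asIdeal) :
    ∃ (x : L) (g : O), InI k e α x ∧ algebraMap O L g = x * x / α ∧
      g - 1 ∈ 𝔓.asIdeal ∧ g ∈ 𝔓'.asIdeal := by
  obtain ⟨y, t, g, hy, ht, hg, hgt⟩ := stepA hα hSD hs
  obtain ⟨p, hp', hp⟩ := hne
  have hmax : 𝔓.asIdeal.IsMaximal := 𝔓.isMaximal
  have htp : t * p ∉ 𝔓.asIdeal := fun h => (𝔓.isPrime.mem_or_mem h).elim ht hp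
  obtain ⟨c, i, hi, hci⟩ := hmax.exists_inv htp
  obtain ⟨ε, hε⟩ : ∃ ε, ε = c * p := ⟨_, rfl⟩
  have hεt : ε * t - 1 ∈ 𝔓.asIdeal := by
    have : ε * t - 1 = -i := by rw [hε, ← hci]; ring
    rw [this]
    exact 𝔓.asIdeal.neg_mem hi
  refine ⟨algebraMap O L ε * y, ε ^ 2 * g, hy.mul ((int_iff (k := k) O _).2 ⟨_, rfl⟩), ?_, ?_, ?_⟩
  · rw [map_mul, map_pow, hg]
    ring
  · have h1 : ε ^ 2 * g - 1 = ε ^ 2 * (g - t ^ 2) + (ε * t + 1) * (ε * t - 1) := by ring
    rw [h1]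
    exact 𝔓.asIdeal.add_mem (𝔓.asIdeal.mul_mem_left _ hgt) (𝔓.asIdeal.mul_mem_left _ hεt)
  · rw [hε, mul_pow, mul_assoc]
    refine 𝔓'.asIdeal.mul_mem_left _ (𝔓'.asIdeal.mul_mem_right _ ?_)
    exact Ideal.pow_mem_of_mem _ hp' 2 two_pos

end main

/-- **TTV** -/
theorem ttv (hI : S_INT) : S_TTV := by
  intro k K L O _ _ _ _ _ _ _ _ _ _ _ _ _ _ _ a b θ h6 h hsq α e hα hSD Q hQ hQb hns hSq
  obtain ⟨t, ht⟩ := theta_ex O h
  obtain ⟨𝔓, hv, ht1⟩ := exists_P1 (O := O) h6 hI h hsq hQ hQb t ht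
  obtain ⟨𝔮, hv2, ht2⟩ := exists_P2 (O := O) h6 hI h hsq hQ hQb t ht
  have htq := theta_not_mem hQ hns hv2 ht2
  have ht2p : t ^ 2 + algebraMap k[X] O a ∉ 𝔓.asIdeal := by
    intro h1
    have h2 : algebraMap k[X] O a ∈ 𝔓.asIdeal := by
      have := 𝔓.asIdeal.sub_mem h1 (𝔓.asIdeal.mul_mem_left t ht1)
      have e : t ^ 2 + algebraMap k[X] O a - t * t = algebraMap k[X] O a := by ring
      rwa [e] at this
    exact not_dvd_a hns ((poly_mem hQ hv a).1 h2)
  obtain ⟨x₁, g₁, hx₁, hg₁, hg₁P, hg₁q⟩ := stepB hα hSD (hSq 𝔓 hv) ⟨_, ht2, ht2p⟩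
  obtain ⟨x₂, g₂, hx₂, hg₂, hg₂q, hg₂P⟩ := stepB hα hSD (hSq 𝔮 hv2) ⟨_, ht1, htq⟩
  obtain ⟨hh, hhh⟩ := (int_iff (k := k) O _).1 (hx₁.prod hSD hx₂)
  have hsqh : hh ^ 2 = g₁ * g₂ := by
    apply IsFractionRing.injective O L
    rw [map_pow, map_mul, hhh, hg₁, hg₂]
    field_simp
  have hhP : hh ∈ 𝔓.asIdeal := by
    apply 𝔓.isPrime.mem_of_pow_mem 2
    rw [hsqh]
    exact 𝔓.asIdeal.mul_mem_left _ hg₂P
  have hhq : hh ∈ 𝔮.asIdeal := by
    apply 𝔮.isPrime.mem_of_pow_mem 2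
    rw [hsqh]
    exact 𝔮.asIdeal.mul_mem_right _ hg₁q
  obtain ⟨ξ, hξ⟩ := hSD.dual _ (hx₁.add hx₂)
  obtain ⟨ξ', hξ'⟩ := hSD.dual _ (hx₁.sub hx₂)
  have h2k : (2 : k) ≠ 0 := by
    intro h0
    apply h6
    have : (6 : k) = 3 * 2 := by norm_num
    rw [this, h0, mul_zero]
  -- coordinates of the values
  have hval : ∀ (c : k[X]), c = 1 ∨ c = -1 → ∃ v : Fin 3 → k[X], Q ∣ v 1 ∧ Q ∣ v 2 ∧
      Crd θ v ((x₁ + algebraMap k[X] L c * x₂) ^ 2 / α) := by
    intro c hc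
    have hcc : c * c = 1 := by rcases hc with rfl | rfl <;> ring
    obtain ⟨z, hz⟩ : ∃ z : O, z = g₁ + 2 * algebraMap k[X] O c * hh + g₂ := ⟨_, rfl⟩
    have hzL : algebraMap O L z = (x₁ + algebraMap k[X] L c * x₂) ^ 2 / α := by
      rw [hz]
      simp only [map_add, map_mul, mapO, hg₁, hg₂, hhh, map_ofNat]
      have h3 : algebraMap k[X] L c * algebraMap k[X] L c = 1 := by
        rw [← map_mul, hcc, map_one]
      have h4 : (x₁ + algebraMap k[X] L c * x₂) ^ 2 / α = x₁ * x₁ / α +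
        2 * algebraMap k[X] L c * (x₁ * x₂ / α) +
        (algebraMap k[X] L c * algebraMap k[X] L c) * (x₂ * x₂ / α) := by ring
      rw [h4, h3, one_mul]
    obtain ⟨v, hvz⟩ := exO (O := O) h6 hI h hsq z
    have hz1 : Crd θ (v + ![-1, 0, 0]) (algebraMap O L (z - 1)) := by
      have := crd_add hvz (crd_C (k := k) θ (-1))
      have e1 : algebraMap O L z + algebraMap k[X] L (-1) = algebraMap O L (z - 1) := by
        rw [map_neg, map_one, map_sub, map_one]; ring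
      rwa [e1] at this
    have hzP : z - 1 ∈ 𝔓.asIdeal := by
      have e1 : z - 1 = (g₁ - 1) + 2 * algebraMap k[X] O c * hh + g₂ := by rw [hz]; ring
      rw [e1]
      exact 𝔓.asIdeal.add_mem (𝔓.asIdeal.add_mem hg₁P (𝔓.asIdeal.mul_mem_left _ hhP)) hg₂P
    have hzq : z - 1 ∈ 𝔮.asIdeal := by
      have e1 : z - 1 = g₁ + 2 * algebraMap k[X] O c * hh + (g₂ - 1) := by rw [hz]; ring
      rw [e1]
      exact 𝔮.asIdeal.add_mem (𝔮.asIdeal.add_mem hg₁q (𝔮.asIdeal.mul_mem_left _ hhq)) hg₂q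
    obtain ⟨-, h7, h8⟩ := mem_both hQ hns ht hv hv2 ht1 ht2 hz1 hzP hzq
    refine ⟨v, ?_, ?_, ?_⟩
    · simpa using h7
    · simpa using h8
    · rw [← hzL]
      exact hvz
  have hv1 : ∃ v : Fin 3 → k[X], Q ∣ v 1 ∧ Q ∣ v 2 ∧
      Crd θ v ((∑ i, algebraMap k[X] L (ξ i) * e i) ^ 2 / α) := by
    obtain ⟨v, a1, a2, a3⟩ := hval 1 (Or.inl rfl)
    refine ⟨v, a1, a2, ?_⟩
    rw [← hξ]
    rw [map_one, one_mul] at a3
    exact a3
  have hv1' : ∃ v : Fin 3 → k[X], Q ∣ v 1 ∧ Q ∣ v 2 ∧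
      Crd θ v ((∑ i, algebraMap k[X] L (ξ' i) * e i) ^ 2 / α) := by
    obtain ⟨v, a1, a2, a3⟩ := hval (-1) (Or.inr rfl)
    refine ⟨v, a1, a2, ?_⟩
    rw [← hξ']
    rw [map_neg, map_one, neg_one_mul, ← sub_eq_add_neg] at a3
    exact a3
  refine ⟨ξ, ξ', ?_, hv1, hv1'⟩
  by_contra hcon
  push Not at hcon
  have hg₁n : g₁ ∉ 𝔓.asIdeal := by
    intro hg
    apply 𝔓.isPrime.ne_top
    rw [Ideal.eq_top_iff_one]
    have := 𝔓.asIdeal.sub_mem hg hg₁P
    rwa [sub_sub_cancel] at this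
  have hg₂n : g₂ ∉ 𝔮.asIdeal := by
    intro hg
    apply 𝔮.isPrime.ne_top
    rw [Ideal.eq_top_iff_one]
    have := 𝔮.asIdeal.sub_mem hg hg₂q
    rwa [sub_sub_cancel] at this
  -- all coordinates are divisible by `Q`
  have hdiv : ∀ j, Q ∣ ξ j := by
    intro j
    choose r hr using fun i => hcon j i
    have hrel : algebraMap k[X] L (ξ j) * (x₁ - x₂) - algebraMap k[X] L (ξ' j) * (x₁ + x₂) =
        algebraMap k[X] L Q * ∑ i, algebraMap k[X] L (r i) * e i := by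
      rw [hξ, hξ', Finset.mul_sum, Finset.mul_sum, Finset.mul_sum, ← Finset.sum_sub_distrib]
      refine Finset.sum_congr rfl fun i _ => ?_
      have h1 := congrArg (algebraMap k[X] L) (hr i)
      rw [map_sub, map_mul, map_mul, map_mul] at h1
      linear_combination (e i) * h1
    have hw : InI k e α (∑ i, algebraMap k[X] L (r i) * e i) := InI.of_span hSD r
    obtain ⟨w₁, hw₁⟩ := (int_iff (k := k) O _).1 (hw.prod hSD hx₁)
    obtain ⟨w₂, hw₂⟩ := (int_iff (k := k) O _).1 (hw.prod hSD hx₂)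
    have e1 : algebraMap k[X] O (ξ j - ξ' j) * g₁ =
        algebraMap k[X] O (ξ j + ξ' j) * hh + algebraMap k[X] O Q * w₁ := by
      apply IsFractionRing.injective O L
      simp only [map_add, map_mul, map_sub, mapO, hg₁, hhh, hw₁]
      linear_combination (x₁ / α) * hrel
    have e2 : algebraMap k[X] O (ξ j + ξ' j) * g₂ =
        algebraMap k[X] O (ξ j - ξ' j) * hh - algebraMap k[X] O Q * w₂ := by
      apply IsFractionRing.injective O L
      simp only [map_add, map_mul, map_sub, mapO, hg₂, hhh, hw₂]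
      linear_combination (-x₂ / α) * hrel
    have e3 : algebraMap k[X] O (ξ j - ξ' j) * g₁ ∈ 𝔓.asIdeal := by
      rw [e1]
      exact 𝔓.asIdeal.add_mem (𝔓.asIdeal.mul_mem_left _ hhP) (𝔓.asIdeal.mul_mem_right _ hv)
    have e4 : algebraMap k[X] O (ξ j + ξ' j) * g₂ ∈ 𝔮.asIdeal := by
      rw [e2]
      exact 𝔮.asIdeal.sub_mem (𝔮.asIdeal.mul_mem_left _ hhq) (𝔮.asIdeal.mul_mem_right _ hv2)
    have e5 : Q ∣ ξ j - ξ' j :=
      (poly_mem hQ hv _).1 ((𝔓.isPrime.mem_or_mem e3).resolve_right hg₁n)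
    have e6 : Q ∣ ξ j + ξ' j :=
      (poly_mem hQ hv2 _).1 ((𝔮.isPrime.mem_or_mem e4).resolve_right hg₂n)
    have e7 : Q ∣ C (2 : k) * ξ j := by
      have := dvd_add e5 e6
      have e8 : ξ j - ξ' j + (ξ j + ξ' j) = C (2 : k) * ξ j := by
        rw [map_ofNat]; ring
      rwa [e8] at this
    have hu : IsUnit (C (2 : k) : k[X]) := isUnit_C.2 (isUnit_iff_ne_zero.2 h2k)
    exact (hu.dvd_mul_left).1 e7
  choose r hr using hdiv
  have hx : x₁ + x₂ = algebraMap k[X] L Q * ∑ i, algebraMap k[X] L (r i) * e i := by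
    rw [hξ, Finset.mul_sum]
    refine Finset.sum_congr rfl fun i _ => ?_
    rw [hr i, map_mul]
    ring
  have hw : InI k e α (∑ i, algebraMap k[X] L (r i) * e i) := InI.of_span hSD r
  obtain ⟨w₁, hw₁⟩ := (int_iff (k := k) O _).1 (hw.prod hSD hx₁)
  have e1 : g₁ + hh = algebraMap k[X] O Q * w₁ := by
    apply IsFractionRing.injective O L
    simp only [map_add, map_mul, mapO, hg₁, hhh, hw₁]
    linear_combination (x₁ / α) * hx
  apply hg₁n
  have e2 : g₁ = algebraMap k[X] O Q * w₁ - hh := by rw [← e1]; ring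
  rw [e2]
  exact 𝔓.asIdeal.sub_mem (𝔓.asIdeal.mul_mem_right _ hv) hhP

end Pool.Agent.N134.PP
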